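import Mathlib

namespace Pool.Agent.H.MP_91c91a_lc

/-- `Acc δ F q w`: reading `w` from state `q` along transitions in `δ` can end in `F`. -/
def Acc {σ α : Type} (δ : Finset (σ × α × σ)) (F : Set σ) : σ → List α → Prop
  | q, [] => q ∈ F
  | q, a :: w => ∃ q', (q, a, q') ∈ δ ∧ Acc δ F q' w

/-- `L` is recognized by an NFA (one start state, no empty moves) with exactly `t` transitions. -/
def HasNFA {α : Type} (L : Set (List α)) (t : ℕ) : Prop :=
  ∃ (σ : Type) (_ : Finite σ) (q₀ : σ) (F : Set σ) (δ : Finset (σ × α × σ)),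
    δ.card = t ∧ ∀ w, w ∈ L ↔ Acc δ F q₀ w

def Regular {α : Type} (L : Set (List α)) : Prop := ∃ t, HasNFA L t

/-- Transition complexity. -/
noncomputable def tc {α : Type} (L : Set (List α)) : ℕ := sInf {t | HasNFA L t}

/-- Inverse image of `L` under the morphism sending each letter `b` to the word `h b`. -/
def inv {Γ α : Type} (h : Γ → List α) (L : Set (List α)) : Set (List Γ) :=
  {w | w.flatMap h ∈ L}

end Pool.Agent.H.MP_91c91a_lc
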