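import Mathlib
import Pool.Agent.H.MP_91c91a_lc.Defs

namespace Pool.Agent.H.MP_91c91a_lc

open Finset

variable {σ α : Type}

theorem trim (δ : Finset (σ × α × σ)) (F : Set σ) (q₀ : σ) (T : ℕ) (hT : δ.card ≤ T) :
    ∃ (q : Fin (T + 1)) (G : Set (Fin (T + 1))) (ε : Finset (Fin (T + 1) × α × Fin (T + 1))),
      ε.card ≤ T ∧ ∀ w, Acc ε G q w ↔ Acc δ F q₀ w := by
  classical
  let Q : Finset σ := insert q₀ (δ.image fun x => x.2.2)
  have hQ : Fintype.card Q ≤ Fintype.card (Fin (T + 1)) := by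
    simp only [Fintype.card_coe, Fintype.card_fin]
    exact (card_insert_le _ _).trans (Nat.succ_le_succ (card_image_le.trans hT))
  obtain ⟨e₀⟩ := Function.Embedding.nonempty_of_card_le hQ
  let e : σ → Fin (T + 1) := fun x => if h : x ∈ Q then e₀ ⟨x, h⟩ else 0
  have he : ∀ x ∈ Q, ∀ y ∈ Q, e x = e y → x = y := by
    intro x hx y hy h
    simp only [e, hx, hy, dif_pos] at h
    exact congrArg Subtype.val (e₀.injective h)
  refine ⟨e q₀, e '' (F ∩ Q), (δ.filter fun x => x.1 ∈ Q).image fun x => (e x.1, x.2.1, e x.2.2),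
    card_image_le.trans ((card_filter_le _ _).trans hT), fun w => ?_⟩
  have h0 : q₀ ∈ Q := mem_insert_self _ _
  generalize q₀ = q at h0 ⊢
  induction w generalizing q with
  | nil =>
    constructor
    · rintro ⟨x, ⟨h1, h2⟩, h3⟩
      exact he x h2 q h0 h3 ▸ h1
    · exact fun h => ⟨q, ⟨h, h0⟩, rfl⟩
  | cons a w ih =>
    have tg : ∀ x ∈ δ, x.2.2 ∈ Q := fun x hx => mem_insert_of_mem (mem_image_of_mem _ hx)
    constructor
    · rintro ⟨q', h1, h2⟩
      obtain ⟨⟨x, b, y⟩, hx, h3⟩ := mem_image.1 h1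
      simp only [Prod.mk.injEq] at h3
      obtain ⟨h3, rfl, rfl⟩ := h3
      rw [mem_filter] at hx
      obtain rfl := he x hx.2 q h0 h3
      exact ⟨y, hx.1, (ih y (tg _ hx.1)).1 h2⟩
    · rintro ⟨q', h1, h2⟩
      exact ⟨e q', mem_image.2 ⟨_, mem_filter.2 ⟨h1, h0⟩, rfl⟩, (ih q' (tg _ h1)).2 h2⟩

theorem tc_le {L : Set (List α)} (δ : Finset (σ × α × σ)) (F : Set σ) (q₀ : σ)
    (h : ∀ w, w ∈ L ↔ Acc δ F q₀ w) : Regular L ∧ tc L ≤ δ.card := by
  obtain ⟨q, G, ε, h1, h2⟩ := trim δ F q₀ _ le_rfl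
  have : HasNFA L ε.card := ⟨_, inferInstance, q, G, ε, rfl, fun w => (h w).trans (h2 w).symm⟩
  exact ⟨⟨_, this⟩, (Nat.sInf_le this).trans h1⟩

theorem tc_spec {L : Set (List α)} (h : Regular L) (T : ℕ) (hT : tc L ≤ T) :
    ∃ (q : Fin (T + 1)) (G : Set (Fin (T + 1))) (ε : Finset (Fin (T + 1) × α × Fin (T + 1))),
      ε.card ≤ T ∧ ∀ w, w ∈ L ↔ Acc ε G q w := by
  obtain ⟨σ, -, q₀, F, δ, h1, h2⟩ : HasNFA L (tc L) := Nat.sInf_mem (s := {t | HasNFA L t}) h
  obtain ⟨q, G, ε, h3, h4⟩ := trim δ F q₀ T (h1 ▸ hT)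
  exact ⟨q, G, ε, h3, fun w => (h2 w).trans (h4 w).symm⟩

theorem acc_append (δ : Finset (σ × α × σ)) (F : Set σ) (p : σ) (u v : List α) :
    Acc δ F p (u ++ v) ↔ ∃ q, Acc δ {q} p u ∧ Acc δ F q v := by
  induction u generalizing p with
  | nil => simp [Acc]
  | cons a u ih =>
    simp only [List.cons_append, Acc, ih]
    constructor
    · rintro ⟨q', h1, q, h2, h3⟩
      exact ⟨q, ⟨q', h1, h2⟩, h3⟩
    · rintro ⟨q, ⟨q', h1, h2⟩, h3⟩
      exact ⟨q', h1, q, h2, h3⟩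

theorem lup {Γ : Type} [Fintype Γ] {n : ℕ} (δ : Finset (Fin n × α × Fin n)) (F : Set (Fin n))
    (q₀ : Fin n) (h : Γ → List α) (t : ℕ) (ht : 0 < t) {L : Set (List α)}
    (hL : ∀ w, w ∈ L ↔ Acc δ F q₀ w) :
    Regular (inv h L) ∧ tc (inv h L) ≤ Fintype.card Γ ^ 2 * n * (n / t + 1) +
      Fintype.card Γ * n * 2 ^ t + Fintype.card Γ * n := by
  classical
  let strip : ℕ → Finset (Fin n) := fun j => univ.filter fun q => q.1 / t = j
  have hs : ∀ j, (strip j).card ≤ t := by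
    intro j
    calc (strip j).card ≤ (range t).card := by
          refine card_le_card_of_injOn (fun q => q.1 % t) (fun q _ => ?_) fun a ha b hb e => ?_
          · simpa using Nat.mod_lt _ ht
          · have ha' : a.1 / t = j := (mem_filter.1 ha).2
            have hb' : b.1 / t = j := (mem_filter.1 hb).2
            have e' : a.1 % t = b.1 % t := e
            ext
            rw [← Nat.div_add_mod a.1 t, ← Nat.div_add_mod b.1 t, ha', hb', e']
      _ = t := card_range t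
  let S : Fin n → Γ → Γ → ℕ → Finset (Fin n) := fun p a b j =>
    (strip j).filter fun q => Acc δ {q} p (h a ++ h b)
  let τ := Fin n ⊕ Option (Γ × Finset (Fin n))
  let T1 : Finset (τ × Γ × τ) :=
    ((univ : Finset (Γ × Γ × Fin n)) ×ˢ range (n / t + 1)).image fun x =>
      (.inl x.1.2.2, x.1.1, .inr (some (x.1.2.1, S x.1.2.2 x.1.1 x.1.2.1 x.2)))
  let T2 : Finset (τ × Γ × τ) := (univ : Finset (Γ × Fin n)).biUnion fun x =>
    (((strip (x.2.1 / t)).powerset).filter fun A => x.2 ∈ A).image fun A =>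
      (.inr (some (x.1, A)), x.1, .inl x.2)
  let T3 : Finset (τ × Γ × τ) :=
    ((univ : Finset (Γ × Fin n)).filter fun x => Acc δ F x.2 (h x.1)).image fun x =>
      (.inl x.2, x.1, .inr none)
  let G : Set τ := {x | x = .inr none ∨ ∃ q ∈ F, x = .inl q}
  have m1 : ∀ p a y, (Sum.inl p, a, y) ∈ T1 ∪ T2 ∪ T3 ↔
      (∃ b j, j < n / t + 1 ∧ y = .inr (some (b, S p a b j))) ∨
        (Acc δ F p (h a) ∧ y = .inr none) := by
    intro p a y
    simp only [T1, T2, T3, mem_union, mem_image, mem_biUnion, mem_filter, mem_product, mem_univ,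
      mem_range, Prod.mk.injEq, true_and, Prod.exists]
    constructor
    · rintro ((⟨a', b, p', j, hj, h1, rfl, rfl⟩ | ⟨_, _, _, _, h1, _⟩) | ⟨a', p', h0, h1, rfl, rfl⟩)
      · obtain rfl := Sum.inl.inj h1
        exact Or.inl ⟨b, j, hj, rfl⟩
      · cases h1
      · obtain rfl := Sum.inl.inj h1
        exact Or.inr ⟨h0, rfl⟩
    · rintro (⟨b, j, hj, rfl⟩ | ⟨h0, rfl⟩)
      · exact Or.inl (Or.inl ⟨a, b, p, j, hj, rfl, rfl, rfl⟩)
      · exact Or.inr ⟨a, p, h0, rfl, rfl, rfl⟩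
  have m2 : ∀ z a y, (Sum.inr z, a, y) ∈ T1 ∪ T2 ∪ T3 ↔
      ∃ A q, z = some (a, A) ∧ y = .inl q ∧ A ⊆ strip (q.1 / t) ∧ q ∈ A := by
    intro z a y
    simp only [T1, T2, T3, mem_union, mem_image, mem_biUnion, mem_filter, mem_product, mem_univ,
      mem_range, Prod.mk.injEq, true_and, Prod.exists, mem_powerset]
    constructor
    · rintro ((⟨_, _, _, _, _, h1, _⟩ | ⟨b, q, A, h0, h1, rfl, rfl⟩) | ⟨_, _, _, h1, _⟩)
      · cases h1
      · exact ⟨A, q, (Sum.inr.inj h1).symm, rfl, h0⟩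
      · cases h1
    · rintro ⟨A, q, rfl, rfl, h0⟩
      exact Or.inl (Or.inr ⟨a, q, A, h0, rfl, rfl, rfl⟩)
  have key : ∀ (w : List Γ) (p : Fin n),
      Acc δ F p (w.flatMap h) ↔ Acc (T1 ∪ T2 ∪ T3) G (.inl p) w := by
    intro w
    induction w using List.twoStepInduction with
    | nil => intro p; simp [Acc, G, τ]
    | singleton a =>
      intro p
      simp only [Acc, m1, List.flatMap_cons, List.flatMap_nil, List.append_nil]
      constructor
      · exact fun h0 => ⟨_, Or.inr ⟨h0, rfl⟩, Or.inl rfl⟩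
      · rintro ⟨_, ⟨b, j, -, rfl⟩ | ⟨h0, rfl⟩, h1⟩
        · simp [G, τ] at h1
        · exact h0
    | cons_cons a b w ih _ =>
      intro p
      rw [List.flatMap_cons, List.flatMap_cons, ← List.append_assoc, acc_append]
      simp only [Acc, m1, ih]
      constructor
      · rintro ⟨q, h1, h2⟩
        refine ⟨_, Or.inl ⟨b, q.1 / t, Nat.lt_succ_of_le (Nat.div_le_div_right q.2.le), rfl⟩,
          .inl q, (m2 _ _ _).2 ⟨_, q, rfl, rfl, filter_subset _ _, ?_⟩, h2⟩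
        exact mem_filter.2 ⟨mem_filter.2 ⟨mem_univ _, rfl⟩, h1⟩
      · rintro ⟨_, ⟨b', j, -, rfl⟩ | ⟨-, rfl⟩, y, h1, h2⟩
        · obtain ⟨A, q, h3, rfl, -, h4⟩ := (m2 _ _ _).1 h1
          simp only [Option.some.injEq, Prod.mk.injEq] at h3
          obtain ⟨rfl, rfl⟩ := h3
          exact ⟨q, (mem_filter.1 h4).2, h2⟩
        · obtain ⟨A, q, h3, -⟩ := (m2 _ _ _).1 h1
          cases h3
  obtain ⟨r1, r2⟩ := tc_le (L := inv h L) (T1 ∪ T2 ∪ T3) G (.inl q₀)
    fun w => (hL _).trans (key w q₀)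
  refine ⟨r1, r2.trans ((card_union_le _ _).trans (add_le_add ((card_union_le _ _).trans
    (add_le_add ?_ ?_)) ?_))⟩
  · refine card_image_le.trans (le_of_eq ?_)
    simp [sq, mul_assoc]
  · refine (card_biUnion_le_card_mul _ _ (2 ^ t) fun x _ => ?_).trans (le_of_eq (by simp))
    refine card_image_le.trans ((card_filter_le _ _).trans ?_)
    rw [card_powerset]
    exact Nat.pow_le_pow_right two_pos (hs _)
  · exact card_image_le.trans ((card_filter_le _ _).trans (le_of_eq (by simp)))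

theorem upper (k : ℕ) (h : Fin k → List α) {L : Set (List α)} (hL : Regular L) (h2 : 1 ≤ tc L) :
    Regular (inv h L) ∧ tc (inv h L) * Nat.log 2 (tc L) ≤ (12 * k ^ 2 + 10 * k) * tc L ^ 2 := by
  obtain ⟨q, G, ε, -, hε⟩ := tc_spec hL _ le_rfl
  generalize tc L = m at *
  set l := Nat.log 2 m with hl
  obtain ⟨r1, r2⟩ := lup ε G q h (l / 2 + 1) (Nat.succ_pos _) hε
  refine ⟨r1, (Nat.mul_le_mul_right _ r2).trans ?_⟩
  have a1 : 2 ^ l ≤ m := Nat.pow_log_le_self 2 (by omega)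
  have a2 : l < m := (Nat.lt_two_pow_self).trans_le a1
  have a3 : ((m + 1) / (l / 2 + 1) + 1) * l ≤ 6 * m := by
    have := Nat.div_mul_le_self (m + 1) (l / 2 + 1)
    have b : l ≤ 2 * (l / 2 + 1) := by omega
    generalize (m + 1) / (l / 2 + 1) = x at *
    nlinarith
  have a4 : 2 ^ (l / 2 + 1) * l ≤ 4 * m := by
    have b1 : l / 2 < 2 ^ (l / 2) := Nat.lt_two_pow_self
    have b2 : 2 ^ (l / 2) * 2 ^ (l / 2) ≤ 2 ^ l := by
      rw [← pow_add]; exact Nat.pow_le_pow_right two_pos (by omega)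
    have b3 : l ≤ 2 * 2 ^ (l / 2) := by omega
    rw [pow_succ]
    nlinarith
  have a5 : m + 1 ≤ 2 * m := by omega
  simp only [Fintype.card_fin]
  calc _ = k ^ 2 * ((m + 1) * (((m + 1) / (l / 2 + 1) + 1) * l)) +
        k * ((m + 1) * (2 ^ (l / 2 + 1) * l)) + k * ((m + 1) * l) := by ring
    _ ≤ k ^ 2 * ((2 * m) * (6 * m)) + k * ((2 * m) * (4 * m)) + k * ((2 * m) * m) := by
        gcongr
    _ = _ := by ring

end Pool.Agent.H.MP_91c91a_lc
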