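import Mathlib
import Pool.Agent.H.MP_91c91a_lc.A

namespace Pool.Agent.H.MP_91c91a_lc

open Finset

variable {σ α : Type}

theorem acc_sub {β : Type} [DecidableEq σ] [DecidableEq α] (e : α → β) (δ : Finset (σ × α × σ))
    (ε : Finset (σ × β × σ)) (F : Set σ) (h : ∀ p a q, (p, a, q) ∈ δ ↔ (p, e a, q) ∈ ε)
    (p : σ) (w : List α) : Acc δ F p w ↔ Acc ε F p (w.map e) := by
  induction w generalizing p with
  | nil => rfl
  | cons a w ih => simp only [List.map_cons, Acc, h, ih]

theorem pad {L : Set (List α)} (hL : Regular L) (j : ℕ) :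
    ∃ K : Set (List (α ⊕ Fin j)), Regular K ∧ tc K = tc L + j ∧ ∀ w, w.map .inl ∈ K ↔ w ∈ L := by
  classical
  obtain ⟨q, G, ε, hc, hε⟩ := tc_spec hL _ le_rfl
  let D : Finset (Option (Fin (tc L + 1)) × (α ⊕ Fin j) × Option (Fin (tc L + 1))) :=
    (ε.image fun x => (some x.1, .inl x.2.1, some x.2.2)) ∪
      (univ : Finset (Fin j)).image fun i => (some q, .inr i, none)
  let G' : Set (Option (Fin (tc L + 1))) := {x | ∀ y, x = some y → y ∈ G}
  let K : Set (List (α ⊕ Fin j)) := {w | Acc D G' (some q) w}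
  have k1 : ∀ w, w.map .inl ∈ K ↔ w ∈ L := by
    intro w
    rw [hε]
    suffices ∀ p, Acc D G' (some p) (w.map .inl) ↔ Acc ε G p w from this q
    intro p
    induction w generalizing p with
    | nil => simp [Acc, G']
    | cons a w ih =>
      simp only [List.map_cons, Acc]
      constructor
      · rintro ⟨y, h1, h2⟩
        simp only [D, mem_union, mem_image, Prod.mk.injEq, Prod.exists] at h1
        rcases h1 with ⟨p', a', y', h0, h3, h4, rfl⟩ | ⟨_, _, _, h3, _⟩
        · obtain rfl := Option.some.inj h3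
          obtain rfl := Sum.inl.inj h4
          exact ⟨y', h0, (ih _).1 h2⟩
        · cases h3
      · rintro ⟨y, h1, h2⟩
        exact ⟨some y, mem_union_left _ (mem_image.2 ⟨_, h1, rfl⟩), (ih _).2 h2⟩
  have k2 : ∀ i, [Sum.inr i] ∈ K := fun i =>
    ⟨none, mem_union_right _ (mem_image.2 ⟨i, mem_univ _, rfl⟩), fun _ h => by cases h⟩
  obtain ⟨r1, r2⟩ := tc_le (L := K) D G' (some q) fun w => Iff.rfl
  refine ⟨K, r1, le_antisymm (r2.trans ((card_union_le _ _).trans
    (add_le_add (card_image_le.trans hc) (card_image_le.trans (by simp))))) ?_, k1⟩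
  obtain ⟨p, H, η, hη, h⟩ := tc_spec r1 _ le_rfl
  refine le_trans ?_ hη
  rw [← card_filter_add_card_filter_not (s := η) (fun x => x.2.1.isLeft)]
  refine add_le_add ?_ ?_
  · let e : Fin (tc K + 1) × α × Fin (tc K + 1) → Fin (tc K + 1) × (α ⊕ Fin j) × Fin (tc K + 1) :=
      fun x => (x.1, .inl x.2.1, x.2.2)
    have he : Function.Injective e := by
      rintro ⟨a, b, c⟩ ⟨a', b', c'⟩ h
      simpa [e] using h
    refine (tc_le (L := L) (η.preimage e he.injOn) H p fun w => ?_).2.trans ?_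
    · rw [← k1, h, acc_sub Sum.inl _ η H fun p a q => mem_preimage]
    · exact card_le_card_of_injOn e (fun x hx => mem_filter.2 ⟨mem_preimage.1 hx, rfl⟩) he.injOn
  · have : ∀ i, ∃ y, (p, Sum.inr i, y) ∈ η := fun i => ((h _).1 (k2 i)).imp fun _ h => h.1
    choose y hy using this
    calc j = (univ : Finset (Fin j)).card := by simp
      _ ≤ _ := card_le_card_of_injOn (fun i => (p, Sum.inr i, y i))
          (fun i _ => mem_filter.2 ⟨hy i, by simp⟩) fun a _ b _ h => by
            simp only [Prod.mk.injEq, Sum.inr.injEq] at h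
            exact h.2.1

theorem count {Γ ι : Type} [Fintype Γ] [Fintype ι] (L : ι → Set (List Γ))
    (hL : Function.Injective L) (hr : ∀ i, Regular (L i)) (T : ℕ) (hT : ∀ i, tc (L i) ≤ T) :
    Fintype.card ι ≤ (T + 1) * 2 ^ (T + 1) * (Fintype.card Γ * (T + 1) ^ 2 + 1) ^ T := by
  classical
  choose q G ε h1 h2 using fun i => tc_spec (hr i) T (hT i)
  have : ∀ i, ∃ f : Fin T → Option (Fin (T + 1) × Γ × Fin (T + 1)),
      ∀ x, x ∈ ε i ↔ ∃ k, f k = some x := by
    intro i
    obtain ⟨e⟩ := Function.Embedding.nonempty_of_card_le (α := ε i) (β := Fin T)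
      (by simpa using h1 i)
    refine ⟨Function.extend e (fun x => some x.1) fun _ => none, fun x => ⟨fun hx => ⟨e ⟨x, hx⟩,
      e.injective.extend_apply _ _ _⟩, ?_⟩⟩
    rintro ⟨k, hk⟩
    by_cases hk' : ∃ y, e y = k
    · obtain ⟨y, rfl⟩ := hk'
      rw [e.injective.extend_apply] at hk
      exact Option.some.inj hk ▸ y.2
    · rw [Function.extend_apply' _ _ _ hk'] at hk
      cases hk
  choose f hf using this
  have inj : Function.Injective fun i => (q i, G i, f i) := by
    intro a b hab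
    simp only [Prod.mk.injEq] at hab
    have : ε a = ε b := by
      ext x
      rw [hf, hf, hab.2.2]
    apply hL
    ext w
    rw [h2, h2, this, hab.1, hab.2.1]
  refine (Fintype.card_le_of_injective _ inj).trans (le_of_eq ?_)
  simp only [Fintype.card_prod, Fintype.card_fin, Fintype.card_set, Fintype.card_fun,
    Fintype.card_option]
  ring

/-- letters: 0 shift, 1 row mark, 2 zero, 3 one -/
def D (n : ℕ) : Finset ((ℕ × ℕ) × Fin 4 × (ℕ × ℕ)) :=
  (range n).biUnion fun i => {((0, i), 0, (0, i + 1)), ((0, i + 1), 1, (0, i)), ((0, 0), 1, (1, 0)),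
    ((0, i), 2, (0, i)), ((0, i), 3, (0, i)), ((1, i), 2, (1, i + 1)), ((1, i), 3, (1, i + 1)),
    ((1, i), 3, (2, i)), ((2, i), 1, (2, i)), ((2, i), 2, (2, i)), ((2, i), 3, (2, i)),
    ((2, i + 1), 0, (2, i))}

theorem D_card (n : ℕ) : (D n).card ≤ n * 12 := by
  refine (card_biUnion_le_card_mul _ _ 12 fun i _ => ?_).trans (by simp)
  repeat refine (card_insert_le _ _).trans (Nat.succ_le_succ ?_)
  simp

theorem mem_D (n s i s' i' : ℕ) (a : Fin 4) : ((s, i), a, (s', i')) ∈ D n ↔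
    (s = 0 ∧ a.1 = 0 ∧ i < n ∧ s' = 0 ∧ i' = i + 1) ∨ (s = 0 ∧ a.1 = 1 ∧ i' < n ∧ s' = 0 ∧ i = i' + 1) ∨
    (s = 0 ∧ a.1 = 1 ∧ 0 < n ∧ i = 0 ∧ s' = 1 ∧ i' = 0) ∨ (s = 0 ∧ 2 ≤ a.1 ∧ i < n ∧ s' = 0 ∧ i' = i) ∨
    (s = 1 ∧ 2 ≤ a.1 ∧ i < n ∧ s' = 1 ∧ i' = i + 1) ∨ (s = 1 ∧ a.1 = 3 ∧ i < n ∧ s' = 2 ∧ i' = i) ∨
    (s = 2 ∧ 1 ≤ a.1 ∧ i < n ∧ s' = 2 ∧ i' = i) ∨ (s = 2 ∧ a.1 = 0 ∧ i' < n ∧ s' = 2 ∧ i = i' + 1) := by
  have := a.2
  simp only [D, mem_biUnion, mem_range, mem_insert, mem_singleton, Prod.mk.injEq, Fin.ext_iff]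
  constructor
  · rintro ⟨x, hx, h⟩
    simp only [Fin.coe_ofNat_eq_mod] at h
    rcases h with h | h | h | h | h | h | h | h | h | h | h | h <;>
      obtain ⟨⟨rfl, rfl⟩, h, rfl, rfl⟩ := h <;> simp [h, hx]
    omega
  · intro h
    simp only [Fin.coe_ofNat_eq_mod]
    rcases h with h | h | h | h | h | h | h | h <;> obtain ⟨rfl, h1, h2, h3, h4⟩ := h
    · exact ⟨i, h2, by simp [*]⟩
    · exact ⟨i', h2, by simp [*]⟩
    · exact ⟨0, h2, by simp [*]⟩
    · exact ⟨i, h2, by simp [*]; omega⟩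
    · exact ⟨i, h2, by simp [*]; omega⟩
    · exact ⟨i, h2, by simp [*]⟩
    · exact ⟨i, h2, by simp [*]; omega⟩
    · exact ⟨i', h2, by simp [*]⟩

def A (n s i : ℕ) (w : List (Fin 4)) : Prop := Acc (D n) {(2, 0)} (s, i) w

theorem A_det {n s i s' i' : ℕ} {a : Fin 4} (w : List (Fin 4))
    (h : ∀ x y, ((s, i), a, (x, y)) ∈ D n ↔ x = s' ∧ y = i') :
    A n s i (a :: w) ↔ A n s' i' w := by
  constructor
  · rintro ⟨⟨x, y⟩, h1, h2⟩
    obtain ⟨rfl, rfl⟩ := (h x y).1 h1
    exact h2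
  · exact fun h2 => ⟨_, (h _ _).2 ⟨rfl, rfl⟩, h2⟩

theorem A_rep (n i j : ℕ) (hi : i ≤ n) : A n 2 i (List.replicate j 0) ↔ i = j := by
  induction j generalizing i with
  | zero => simp [A, Acc]
  | succ j ih =>
    rw [List.replicate_succ]
    cases i with
    | zero =>
      refine iff_of_false ?_ (by omega)
      rintro ⟨⟨x, y⟩, h1, -⟩
      rw [mem_D] at h1
      simp at h1
    | succ i =>
      rw [A_det (s' := 2) (i' := i) _ fun x y => by rw [mem_D]; simp; omega, ih i (by omega)]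
      omega

theorem A_two (n i j : ℕ) (hi : i < n) (u : List (Fin 4)) (hu : ∀ a ∈ u, 1 ≤ a.1) :
    A n 2 i (u ++ List.replicate j 0) ↔ i = j := by
  induction u with
  | nil => exact A_rep n i j hi.le
  | cons a u ih =>
    have := hu a (by simp)
    rw [List.cons_append, A_det (s' := 2) (i' := i) _ fun x y => by rw [mem_D]; omega]
    exact ih fun b hb => hu b (by simp [hb])

def row (r : List Bool) : List (Fin 4) := r.map fun b => if b then 3 else 2
def W (R : List (List Bool)) : List (Fin 4) := R.flatMap fun r => 1 :: row r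

theorem row_ge (r : List Bool) : ∀ a ∈ row r, 2 ≤ a.1 := by
  intro a ha
  obtain ⟨b, -, rfl⟩ := List.mem_map.1 ha
  cases b <;> simp

theorem W_ge (R : List (List Bool)) : ∀ a ∈ W R, 1 ≤ a.1 := by
  intro a ha
  obtain ⟨r, -, h⟩ := List.mem_flatMap.1 ha
  rcases List.mem_cons.1 h with rfl | h
  · simp
  · exact one_le_two.trans (row_ge r a h)

theorem A_one_dead (n c j : ℕ) (R : List (List Bool)) : ¬ A n 1 c (W R ++ List.replicate j 0) := by
  cases R with
  | nil =>
    cases j with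
    | zero => simp [W, A, Acc]
    | succ j =>
      rintro ⟨⟨x, y⟩, h1, -⟩
      rw [mem_D] at h1
      simp at h1
  | cons r R =>
    rintro ⟨⟨x, y⟩, h1, -⟩
    rw [mem_D] at h1
    simp at h1

theorem A_one (n j : ℕ) (R : List (List Bool)) (r : List Bool) (c : ℕ) (hc : c + r.length ≤ n) :
    A n 1 c (row r ++ (W R ++ List.replicate j 0)) ↔ ∃ t, r[t]? = some true ∧ c + t = j := by
  induction r generalizing c with
  | nil => simpa [row] using A_one_dead n c j R
  | cons b r ih =>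
    rw [List.length_cons] at hc
    have e : (∃ t, (b :: r)[t]? = some true ∧ c + t = j) ↔
        (b = true ∧ c = j) ∨ ∃ t, r[t]? = some true ∧ c + 1 + t = j := by
      constructor
      · rintro ⟨_ | t, h1, h2⟩
        · exact Or.inl ⟨by simpa using h1, h2⟩
        · exact Or.inr ⟨t, by simpa using h1, by omega⟩
      · rintro (⟨rfl, h⟩ | ⟨t, h1, h2⟩)
        · exact ⟨0, rfl, h⟩
        · exact ⟨t + 1, by simpa using h1, by omega⟩
    rw [e, ← ih (c + 1) (by omega)]
    cases b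
    · change A n 1 c (2 :: (row r ++ _)) ↔ _
      rw [A_det (s' := 1) (i' := c + 1) _ fun x y => by rw [mem_D]; simp; omega]
      simp
    · change A n 1 c (3 :: (row r ++ _)) ↔ _
      have h2 := A_two n c j (by omega) (row r ++ W R) fun a ha => by
        rcases List.mem_append.1 ha with h | h
        · exact one_le_two.trans (row_ge r a h)
        · exact W_ge R a h
      rw [List.append_assoc] at h2
      rw [← h2]
      constructor
      · rintro ⟨⟨x, y⟩, h1, h3⟩
        rw [mem_D] at h1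
        have : (x = 2 ∧ y = c) ∨ (x = 1 ∧ y = c + 1) := by simp at h1; omega
        rcases this with ⟨rfl, rfl⟩ | ⟨rfl, rfl⟩
        · exact Or.inl ⟨rfl, h3⟩
        · exact Or.inr h3
      · rintro (⟨-, h⟩ | h)
        · exact ⟨_, by rw [mem_D]; simp; omega, h⟩
        · exact ⟨_, by rw [mem_D]; simp; omega, h⟩

theorem A_skip (n i : ℕ) (hi : i < n) (u w : List (Fin 4)) (hu : ∀ a ∈ u, 2 ≤ a.1) :
    A n 0 i (u ++ w) ↔ A n 0 i w := by
  induction u with
  | nil => rfl
  | cons a u ih =>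
    have := hu a (by simp)
    rw [List.cons_append, A_det (s' := 0) (i' := i) _ fun x y => by rw [mem_D]; omega]
    exact ih fun b hb => hu b (by simp [hb])

theorem A_zero (n j : ℕ) (R : List (List Bool)) (hR : ∀ r ∈ R, r.length ≤ n) (i : ℕ) (hi : i < n)
    (hi' : i < R.length) : A n 0 i (W R ++ List.replicate j 0) ↔ R[i][j]? = some true := by
  induction R generalizing i with
  | nil => simp at hi'
  | cons r R ih =>
    have e : W (r :: R) ++ List.replicate j 0 = 1 :: (row r ++ (W R ++ List.replicate j 0)) := by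
      simp [W]
    rw [e]
    cases i with
    | zero =>
      rw [A_det (s' := 1) (i' := 0) _ fun x y => by rw [mem_D]; simp; omega,
        A_one n j R r 0 (by simpa using hR r (by simp))]
      simp
    | succ i =>
      rw [A_det (s' := 0) (i' := i) _ fun x y => by rw [mem_D]; simp; omega,
        A_skip n i (by omega) _ _ (row_ge r),
        ih (fun r hr => hR r (by simp [hr])) i (by omega) (by simpa using hi')]
      simp

theorem A_start (n c i : ℕ) (h : c + i ≤ n) (w : List (Fin 4)) :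
    A n 0 c (List.replicate i 0 ++ w) ↔ A n 0 (c + i) w := by
  induction i generalizing c with
  | zero => rfl
  | succ i ih =>
    rw [List.replicate_succ, List.cons_append,
      A_det (s' := 0) (i' := c + 1) _ fun x y => by rw [mem_D]; simp; omega, ih (c + 1) (by omega),
      show c + 1 + i = c + (i + 1) by omega]

theorem family {Γ : Type} [Nontrivial Γ] (n : ℕ) : ∃ L : Set (List (Fin 4)), Regular L ∧
    tc L ≤ n * 12 ∧ ∃ h : (Fin n → Fin n → Bool) → Γ → List (Fin 4),
      Function.Injective fun M => inv (h M) L := by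
  classical
  obtain ⟨r1, r2⟩ := tc_le (L := {w | A n 0 0 w}) (D n) {(2, 0)} (0, 0) fun w => Iff.rfl
  obtain ⟨a, b, hab⟩ := exists_pair_ne Γ
  let R : (Fin n → Fin n → Bool) → List (List Bool) := fun M => List.ofFn fun i => List.ofFn (M i)
  refine ⟨_, r1, r2.trans (D_card n), fun M x => if x = a then [0] else W (R M), ?_⟩
  have key : ∀ M (i j : Fin n), List.replicate i a ++ b :: List.replicate j a ∈
      inv (fun x => if x = a then [0] else W (R M)) {w | A n 0 0 w} ↔ M i j = true := by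
    intro M i j
    have e : (List.replicate i a ++ b :: List.replicate j a).flatMap
        (fun x => if x = a then [0] else W (R M)) =
        List.replicate i 0 ++ (W (R M) ++ List.replicate j 0) := by
      simp [hab.symm, List.flatMap_replicate]
    change A n 0 0 _ ↔ _
    rw [e, A_start n 0 i (by omega), zero_add, A_zero n j (R M) (by simp [R]) i i.2 (by simp [R])]
    simp [R]
  intro M M' h
  ext i j
  have h' : inv _ _ = inv _ _ := h
  rw [Bool.eq_iff_iff, ← key, ← key, h']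

theorem arith (k m t : ℕ) (hm : 24 ≤ m)
    (h : 2 ^ (m / 12 * (m / 12)) ≤ (t + 1) * 2 ^ (t + 1) * (k * (t + 1) ^ 2 + 1) ^ t) :
    m ^ 2 ≤ 324 * (k + 11) * (t * Nat.log 2 m) := by
  set l := Nat.log 2 m with hl
  have l1 : 1 ≤ l := Nat.log_pos one_lt_two (by omega)
  rcases le_or_gt (m ^ 2) t with ht | ht
  · calc m ^ 2 = 1 * (m ^ 2 * 1) := by ring
      _ ≤ _ := by gcongr; omega
  have a1 : m < 2 ^ (l + 1) := Nat.lt_pow_succ_log_self one_lt_two m
  have a2 : t + 1 ≤ (2 ^ (l + 1)) ^ 2 := (Nat.succ_le_of_lt ht).trans (by gcongr)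
  have a3 : k * (t + 1) ^ 2 + 1 ≤ 2 ^ (k + 4 * l + 4) := by
    have b1 : k + 1 ≤ 2 ^ k := Nat.lt_two_pow_self
    calc _ ≤ (k + 1) * (t + 1) ^ 2 := by nlinarith [Nat.one_le_pow 2 (t + 1) t.succ_pos]
      _ ≤ 2 ^ k * ((2 ^ (l + 1)) ^ 2) ^ 2 := by gcongr
      _ = _ := by ring
  have a4 : t + 1 ≤ 2 ^ t := Nat.lt_two_pow_self
  have a5 : 2 ^ (m / 12 * (m / 12)) ≤ 2 ^ (t + (t + 1) + (k + 4 * l + 4) * t) :=
    calc _ ≤ _ := h
      _ ≤ 2 ^ t * 2 ^ (t + 1) * (2 ^ (k + 4 * l + 4)) ^ t := by gcongr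
      _ = _ := by rw [← pow_mul, ← pow_add, ← pow_add]
  have a6 := (Nat.pow_le_pow_iff_right one_lt_two).1 a5
  have a7 : 2 ≤ m / 12 := by omega
  have a8 : m ≤ 18 * (m / 12) := by omega
  generalize m / 12 = n at *
  have a9 : 1 ≤ t := by
    rcases Nat.eq_zero_or_pos t with rfl | h
    · nlinarith
    · exact h
  have b1 : t ≤ t * l := Nat.le_mul_of_pos_right _ l1
  have b2 : k * t ≤ k * (t * l) := Nat.mul_le_mul_left _ b1
  have b3 : n * n ≤ (k + 11) * (t * l) := by nlinarith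
  calc m ^ 2 ≤ (18 * n) ^ 2 := by gcongr
    _ = 324 * (n * n) := by ring
    _ ≤ 324 * ((k + 11) * (t * l)) := by gcongr
    _ = _ := by ring

theorem lower (k : ℕ) (hk : 2 ≤ k) (m : ℕ) (hm : 24 ≤ m) :
    ∃ (S : Type) (_ : Finite S) (h : Fin k → List S) (L : Set (List S)), Regular L ∧ tc L = m ∧
      m ^ 2 ≤ 324 * (k + 11) * (tc (inv h L) * Nat.log 2 m) := by
  have : Nontrivial (Fin k) := Fin.nontrivial_iff_two_le.2 hk
  obtain ⟨L, r1, r2, h, hh⟩ := family (Γ := Fin k) (m / 12)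
  obtain ⟨K, s1, s2, s3⟩ := pad r1 (m - tc L)
  obtain ⟨M, hM⟩ := Finite.exists_max fun M => tc (inv (h M) L)
  have e : inv (fun b => (h M b).map Sum.inl) K = inv (h M) L := by
    ext w
    change _ ∈ K ↔ _ ∈ L
    rw [← s3, List.map_flatMap]
  refine ⟨_, inferInstance, fun b => (h M b).map .inl, K, s1, by omega, ?_⟩
  rw [e]
  apply arith k m _ hm
  obtain ⟨q, G, ε, -, hε⟩ := tc_spec r1 _ le_rfl
  have := count _ hh (fun M => (lup ε G q (h M) 1 one_pos hε).1) _ hM
  simpa [← pow_mul] using this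

end Pool.Agent.H.MP_91c91a_lc
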